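import Pool.Agent.V5helper32.Mal

/-! A finite-dimensional nilpotent Malcev algebra with `A⁶ = 0` and no faithful representation. -/

namespace Pool.Agent.Results.MP_754a42_al.SharpBound

open Pool.Agent.W5h64.Mal

universe u v

/-- Over every field of characteristic zero there is a Malcev algebra of dimension fifteen in
which all products of six elements vanish and which has no faithful representation, not even
an infinite-dimensional one. -/
theorem result (F : Type u) [Field F] [CharZero F] :
    ∃ m : (Fin 15 → F) →ₗ[F] (Fin 15 → F) →ₗ[F] (Fin 15 → F),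
      IsMalcev m ∧ SixZero m ∧
        ∀ (V : Type v) [AddCommGroup V] [Module F V]
          (ρ : (Fin 15 → F) →ₗ[F] Module.End F V), IsRep m ρ → ¬ Function.Injective ρ :=
  ⟨Pool.Agent.V5helper32.Mal.mul15 F, Pool.Agent.V5helper32.Mal.mul15_malcev F,
    Pool.Agent.V5helper32.Mal.mul15_sixZero F,
    fun _ _ _ ρ h => Pool.Agent.V5helper32.Mal.not_faithful ρ h⟩

end Pool.Agent.Results.MP_754a42_al.SharpBound
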